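import Pool.Agent.H58.FN.Targets

/-!
Row UMM of the board fnc: coboundary of the mean phase cochain.
-/

set_option autoImplicit false

open Topology

namespace Pool.Agent.H67.FN

open Pool.Agent.H59 Pool.Agent.H48.FR Pool.Agent.H58.FL Pool.Agent.H30.FA Pool.Agent.H58.FM
open Pool.Agent.H58.FN

theorem umm_mn {E : Type} [NormedAddCommGroup E] [InnerProductSpace ℂ E] (a b c d : E) :
    mn a b c d = pa b c d - pa a c d + pa a b d - pa a b c := by
  unfold mn pa
  ring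

theorem umm_1 (a : ℕ) (u : Fin a → Fin a → Fin a → ℝ) :
    ∑ _i : Fin a, ∑ j, ∑ k, ∑ l, u j k l = a * ∑ j, ∑ k, ∑ l, u j k l := by
  rw [Finset.sum_const, Finset.card_univ, Fintype.card_fin, nsmul_eq_mul]

theorem umm_2 (a : ℕ) (u : Fin a → Fin a → Fin a → ℝ) :
    ∑ i, ∑ _j : Fin a, ∑ k, ∑ l, u i k l = a * ∑ j, ∑ k, ∑ l, u j k l := by
  rw [Finset.mul_sum]
  exact Finset.sum_congr rfl fun i _ => by
    rw [Finset.sum_const, Finset.card_univ, Fintype.card_fin, nsmul_eq_mul]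

theorem umm_3 (a : ℕ) (u : Fin a → Fin a → Fin a → ℝ) :
    ∑ i, ∑ j, ∑ _k : Fin a, ∑ l, u i j l = a * ∑ j, ∑ k, ∑ l, u j k l := by
  rw [Finset.mul_sum]
  refine Finset.sum_congr rfl fun i _ => ?_
  rw [Finset.mul_sum]
  exact Finset.sum_congr rfl fun j _ => by
    rw [Finset.sum_const, Finset.card_univ, Fintype.card_fin, nsmul_eq_mul]

theorem umm_4 (a : ℕ) (u : Fin a → Fin a → Fin a → ℝ) :
    ∑ i, ∑ j, ∑ k, ∑ _l : Fin a, u i j k = a * ∑ j, ∑ k, ∑ l, u j k l := by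
  rw [Finset.mul_sum]
  refine Finset.sum_congr rfl fun i _ => ?_
  rw [Finset.mul_sum]
  refine Finset.sum_congr rfl fun j _ => ?_
  rw [Finset.mul_sum]
  exact Finset.sum_congr rfl fun k _ => by
    rw [Finset.sum_const, Finset.card_univ, Fintype.card_fin, nsmul_eq_mul]

theorem pf_UMM : T_UMM := by
  intro E J X _ _ a x A ha f g h k
  have ha' : (a : ℝ) ≠ 0 := by exact_mod_cast ha.ne'
  have hM : (∑ i, ∑ j, ∑ k', ∑ l, mn (x (A f i)) (x (A g j)) (x (A h k')) (x (A k l))) =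
      a * (∑ i, ∑ j, ∑ l, pa (x (A g i)) (x (A h j)) (x (A k l))) -
      a * (∑ i, ∑ j, ∑ l, pa (x (A f i)) (x (A h j)) (x (A k l))) +
      a * (∑ i, ∑ j, ∑ l, pa (x (A f i)) (x (A g j)) (x (A k l))) -
      a * (∑ i, ∑ j, ∑ l, pa (x (A f i)) (x (A g j)) (x (A h l))) := by
    rw [← umm_1 a fun i j l => pa (x (A g i)) (x (A h j)) (x (A k l)),
      ← umm_2 a fun i j l => pa (x (A f i)) (x (A h j)) (x (A k l)),
      ← umm_3 a fun i j l => pa (x (A f i)) (x (A g j)) (x (A k l)),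
      ← umm_4 a fun i j l => pa (x (A f i)) (x (A g j)) (x (A h l)),
      ← Finset.sum_sub_distrib, ← Finset.sum_add_distrib, ← Finset.sum_sub_distrib]
    refine Finset.sum_congr rfl fun i _ => ?_
    rw [← Finset.sum_sub_distrib, ← Finset.sum_add_distrib, ← Finset.sum_sub_distrib]
    refine Finset.sum_congr rfl fun j _ => ?_
    rw [← Finset.sum_sub_distrib, ← Finset.sum_add_distrib, ← Finset.sum_sub_distrib]
    refine Finset.sum_congr rfl fun k' _ => ?_
    rw [← Finset.sum_sub_distrib, ← Finset.sum_add_distrib, ← Finset.sum_sub_distrib]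
    exact Finset.sum_congr rfl fun l _ => umm_mn _ _ _ _
  unfold d2 UU MM
  rw [hM]
  field_simp

end Pool.Agent.H67.FN
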